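import Pool.Agent.H57.CN.Targets

/-!
# Row EXR of the board chn_modules: generic elements of classes of partial flags
-/

set_option autoImplicit false

namespace Pool.Agent.H40.CN

open Pool.Agent.H57.CN
open Pool.Agent.H68.BP Pool.Agent.H58.SF Pool.Agent.H53.NR
open Pool.Agent.H53.GC (strOn sigOf)
open Pool.Agent.H57.AR (tp ty Ty)
open Pool.Agent.H57.LH (Hmg strOn_on)
open Pool.Agent.H72.CH
open Function

/-- there are many names of each sort -/
theorem many {V : Type} {ρ : Sig} {𝔹 : Str ρ V} {m : ℕ} {lv : V → V → ℕ} (hEXF : T_EXF)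
    (hV : HV 𝔹 m lv) (hm : 1 ≤ m) {R : ℕ} (hR : 2 ≤ R) {𝔻 : Str (NS ρ m R) ℕ} {st : ℕ → Fin m}
    {β : (Fin m → ℕ) → V} {c : Fin m → ℕ} (hL : Lim (KN 𝔹 m lv R) 𝔻)
    (hN : NmB 𝔹 m lv R 𝔻 st β c) (n : ℕ) (i : Fin m) :
    ∃ y : Fin n → ℕ, Injective y ∧ ∀ k, st (y k) = i := by
  obtain ⟨g, hg⟩ := hEXF V ρ 𝔹 m lv hV (Fin n ⊕ Fin m) (sD fun _ : Fin n => i)
  have hne : ∀ s : NI ρ m R, Nonempty (NA ρ m R s) := by
    rintro (s | s)
    · exact ⟨()⟩
    · exact ⟨(⟨0, by omega⟩, ⟨0, hm⟩)⟩
  have hstr := hN.str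
  obtain ⟨y, hy1, -, hy2⟩ := hL.ext (Fin n) ∅ (fun _ => 0)
    (strOn (NR 𝔹 lv (fun _ : Fin n => i) (dk g))) (Set.injOn_empty _) ⟨_, g, hg, rfl⟩ (by
      rw [hstr]
      exact (strOn_on (x := fun _ : Fin n => (0 : ℕ)) (y := id) ∅).2 fun s z hz =>
        absurd (hz (Classical.choice (hne s))) (Set.notMem_empty _))
  refine ⟨y, hy1, fun k => ?_⟩
  rw [hstr] at hy2
  have h1 := (strOn_on (R := NR 𝔹 lv st (bk β c))
    (R' := NR 𝔹 lv (fun _ : Fin n => i) (dk g)) (x := y) (y := id) Set.univ).1 (by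
      intro l z _
      exact iff_of_eq (congrFun (congrFun hy2 l) z)) (Sum.inl i) (fun _ => k) fun _ => trivial
  exact h1.2 rfl

theorem pf_EXR : T_EXF → T_EXR := by
  classical
  intro hEXF V ρ 𝔹 m lv hV hm R hR 𝔻 st β c hL hN z h hz
  have hinf : ∀ i : Fin m, {k | st k = i}.Infinite := by
    intro i hfin
    obtain ⟨y, hy1, hy2⟩ := many hEXF hV hm (by omega) hL hN (hfin.toFinset.card + 1) i
    have h1 : (Finset.univ.image y).card ≤ hfin.toFinset.card := by
      refine Finset.card_le_card fun k hk => ?_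
      obtain ⟨a, -, rfl⟩ := Finset.mem_image.1 hk
      exact hfin.mem_toFinset.2 (hy2 a)
    rw [Finset.card_image_of_injective _ hy1, Finset.card_univ, Fintype.card_fin] at h1
    omega
  have hnew : ∀ i : Fin m, ∃ f : Fin R → ℕ, Injective f ∧ (∀ a, st (f a) = i) ∧
      ∀ a q, f a ≠ z q := by
    intro i
    have h1 : ({k | st k = i} \ Set.range z).Infinite := (hinf i).sdiff (Set.finite_range z)
    let e := h1.natEmbedding
    refine ⟨fun a => (e a.1).1, fun a b hab => ?_, fun a => (e a.1).2.1, fun a q hq => ?_⟩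
    · exact Fin.ext (e.injective (Subtype.ext hab))
    · exact (e a.1).2.2 ⟨q, hq.symm⟩
  choose nw hn1 hn2 hn3 using hnew
  let w : Fin R → Fin m → ℕ := fun a i => if i ≤ h a then z (a, i) else nw i a
  have hw : ∀ a, IsFl st (w a) := by
    intro a i
    change st (if i ≤ h a then z (a, i) else nw i a) = i
    split_ifs with hi
    · exact hz a i hi
    · exact hn2 i a
  refine ⟨fun a => β (w a), fun a => ?_, fun a b hab => ?_⟩
  · have hu : IsFl st (fun i => if i ≤ h a then z (a, i) else c i) := by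
      intro i
      change st (if i ≤ h a then z (a, i) else c i) = i
      split_ifs with hi
      · exact hz a i hi
      · exact hN.cst i
    refine (hN.exa _ _ (hw a) hu (fun _ => trivial) (fun _ => trivial) _ (h a).2).2 ?_
    intro i hi
    have h2 : i ≤ h a := Nat.lt_succ_iff.1 hi
    change (if i ≤ h a then z (a, i) else nw i a) = if i ≤ h a then z (a, i) else c i
    rw [if_pos h2, if_pos h2]
  · have key : ∀ j ≤ m, j ≤ lv (β (w a)) (β (w b)) ↔
        j ≤ min (agl (fun i => z (a, i)) (fun i => z (b, i)))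
          (min ((h a : ℕ) + 1) ((h b : ℕ) + 1)) := by
      intro j hj
      rw [hN.exa _ _ (hw a) (hw b) (fun _ => trivial) (fun _ => trivial) j hj, le_min_iff,
        le_min_iff, le_agl hj]
      have hrow : ∀ i : Fin m, w a i = w b i ↔ i ≤ h a ∧ i ≤ h b ∧ z (a, i) = z (b, i) := by
        intro i
        change (if i ≤ h a then z (a, i) else nw i a) = (if i ≤ h b then z (b, i) else nw i b) ↔ _
        by_cases h1 : i ≤ h a
        · by_cases h2 : i ≤ h b
          · rw [if_pos h1, if_pos h2]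
            exact ⟨fun h3 => ⟨h1, h2, h3⟩, fun h3 => h3.2.2⟩
          · rw [if_pos h1, if_neg h2]
            exact ⟨fun h3 => absurd h3.symm (hn3 i b _), fun h3 => absurd h3.2.1 h2⟩
        · by_cases h2 : i ≤ h b
          · rw [if_neg h1, if_pos h2]
            exact ⟨fun h3 => absurd h3 (hn3 i a _), fun h3 => absurd h3.1 h1⟩
          · rw [if_neg h1, if_neg h2]
            exact ⟨fun h3 => absurd (hn1 i h3) hab, fun h3 => absurd h3.1 h1⟩
      constructor
      · intro hA
        refine ⟨fun i hi => ((hrow i).1 (hA i hi)).2.2, ?_, ?_⟩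
        · by_contra hc
          have h3 : (h a : ℕ) + 1 < m := by omega
          have h4 := ((hrow ⟨(h a : ℕ) + 1, h3⟩).1 (hA ⟨_, h3⟩ (by
            change (h a : ℕ) + 1 < j
            omega))).1
          have h5 : (h a : ℕ) + 1 ≤ h a := h4
          omega
        · by_contra hc
          have h3 : (h b : ℕ) + 1 < m := by omega
          have h4 := ((hrow ⟨(h b : ℕ) + 1, h3⟩).1 (hA ⟨_, h3⟩ (by
            change (h b : ℕ) + 1 < j
            omega))).2.1
          have h5 : (h b : ℕ) + 1 ≤ h b := h4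
          omega
      · rintro ⟨h1, h2, h3⟩ i hi
        refine (hrow i).2 ⟨?_, ?_, h1 i hi⟩
        · change (i : ℕ) ≤ h a
          omega
        · change (i : ℕ) ≤ h b
          omega
    have hr : min (agl (fun i => z (a, i)) (fun i => z (b, i)))
          (min ((h a : ℕ) + 1) ((h b : ℕ) + 1)) ≤ m := (min_le_left _ _).trans (agl_le _ _)
    exact le_antisymm ((key _ (hV.lev.pl.le _ _)).1 le_rfl) ((key _ hr).2 le_rfl)

end Pool.Agent.H40.CN
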